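import Pool.Agent.Helper31_ABCT.DZ

/-!
# Module DTB: purity for `tsum`
-/

set_option autoImplicit false

open MvPolynomial Topology

namespace ABCT.H31

open FlatCell

/-- balanced representation of the closure of the cell of `tsum` -/
def RepStmt : Prop :=
  ∀ (S T : Net) (q : ℕ), (Net.tsum S T q).Valid → ∀ z ∈ closure (Net.tsum S T q).flat.Z,
    ∃ y ∈ closure S.flat.Z, ∃ x ∈ closure T.flat.Z, z = comb (S.E.erase q) q y x ∧
      ∀ K0 ∈ T.M, ∃ K ∈ T.M, 0 < x K ∧ (q ∈ K ↔ q ∈ K0)

theorem Z_pos {S : Net} (hS : S.Valid) {z : Finset ℕ → ℝ} (hz : z ∈ S.flat.Z) {I : Finset ℕ}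
    (hI : I ∈ S.M) : 0 < z I := by
  obtain ⟨x, hx, rfl⟩ := hz
  rw [ev_eq]
  refine mul_pos (Finset.prod_pos fun i _ => hx _) ?_
  have hne := ((Net.wf' S hS).ne I).2 hI
  rw [eval₂_eq]
  refine Finset.sum_pos (fun m hm => mul_pos ?_ (Finset.prod_pos fun i _ => pow_pos (hx _) _)) ?_
  · simp only [eq_natCast, Nat.cast_pos]
    exact Nat.pos_of_ne_zero (mem_support_iff.1 hm)
  · exact support_nonempty.2 hne

theorem clZ_zero {S : Net} (hS : S.Valid) {z : Finset ℕ → ℝ} (hz : z ∈ closure S.flat.Z)
    {I : Finset ℕ} (hI : I ∉ S.M) : z I = 0 := by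
  have hc : IsClosed {z : Finset ℕ → ℝ | z I = 0} :=
    isClosed_eq (continuous_apply I) continuous_const
  exact closure_minimal (fun w hw => Z_zero hS hw _ hI) hc hz

theorem comb_continuous (A : Finset ℕ) (q : ℕ) :
    Continuous fun p : (Finset ℕ → ℝ) × (Finset ℕ → ℝ) => comb A q p.1 p.2 := by
  refine continuous_pi fun I => ?_
  unfold comb
  by_cases h : q ∈ I
  · simp only [if_pos h]
    exact continuous_const
  · simp only [if_neg h]
    have f1 : ∀ J : Finset ℕ, Continuous fun p : (Finset ℕ → ℝ) × (Finset ℕ → ℝ) => p.1 J :=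
      fun J => (continuous_apply J).comp continuous_fst
    have f2 : ∀ J : Finset ℕ, Continuous fun p : (Finset ℕ → ℝ) × (Finset ℕ → ℝ) => p.2 J :=
      fun J => (continuous_apply J).comp continuous_snd
    exact ((f1 _).mul (f2 _)).add ((f1 _).mul (f2 _))

theorem comb_closure {S T : Net} {q : ℕ} (hV : (Net.tsum S T q).Valid) {A : Finset ℕ}
    (hA : A = S.E.erase q) {y x : Finset ℕ → ℝ}
    (hy : y ∈ closure S.flat.Z) (hx : x ∈ closure T.flat.Z) :
    comb A q y x ∈ closure (Net.tsum S T q).flat.Z := by
  subst hA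
  have h1 : (y, x) ∈ closure (S.flat.Z ×ˢ T.flat.Z) := by
    rw [closure_prod_eq]
    exact ⟨hy, hx⟩
  have h2 := image_closure_subset_closure_image (comb_continuous (S.E.erase q) q)
    (s := S.flat.Z ×ˢ T.flat.Z)
  refine closure_mono ?_ (h2 ⟨_, h1, rfl⟩)
  rintro _ ⟨⟨a, b⟩, ⟨ha, hb⟩, rfl⟩
  rw [znet.1 S T q hV]
  exact ⟨a, ha, b, hb, rfl⟩

/-- the part of a vector with (without) the label `q` -/
def part (q : ℕ) (b : Bool) (z : Finset ℕ → ℝ) : Finset ℕ → ℝ :=
  fun I => if decide (q ∈ I) = b then z I else 0

theorem part_closure {T : Net} (hT : T.Valid) (hr : 1 ≤ T.rk) (q : ℕ) (b : Bool)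
    {x : Finset ℕ → ℝ} (hx : x ∈ closure T.flat.Z) : part q b x ∈ closure T.flat.Z := by
  -- the map `part` is a limit of scalings
  have h1 : ∀ z ∈ T.flat.Z, part q b z ∈ closure T.flat.Z := by
    intro z hz
    have hlim : Filter.Tendsto (fun n : ℕ => sclv q
        (if b then 1 / ((n : ℝ) + 1) else 1) (if b then 1 else 1 / ((n : ℝ) + 1)) z)
        Filter.atTop (𝓝 (part q b z)) := by
      rw [tendsto_pi_nhds]
      intro I
      have h0 := tendsto_one_div_add_atTop_nhds_zero_nat (𝕜 := ℝ)
      cases b
      · by_cases hq : q ∈ I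
        · simp only [sclv, part, hq, if_true, decide_true, Bool.true_eq_false, if_false,
            Bool.false_eq_true]
          simpa using h0.mul_const (z I)
        · simp only [sclv, part, hq, if_false, decide_false, Bool.false_eq_true]
          simp
      · by_cases hq : q ∈ I
        · simp only [sclv, part, hq, if_true, decide_true]
          simp
        · simp only [sclv, part, hq, if_false, decide_false, if_true, Bool.false_eq_true]
          simpa using h0.mul_const (z I)
    refine mem_closure_of_tendsto hlim (Filter.Eventually.of_forall fun n => ?_)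
    have hn : (0 : ℝ) < 1 / ((n : ℝ) + 1) := by positivity
    apply sclv_mem hT hr _ _ hz
    · cases b <;> simp <;> positivity
    · cases b <;> simp <;> positivity
  have hc : Continuous (part q b) := by
    refine continuous_pi fun I => ?_
    unfold part
    by_cases h : decide (q ∈ I) = b
    · simp only [if_pos h]
      exact continuous_apply I
    · simp only [if_neg h]
      exact continuous_const
  have h2 : part q b x ∈ closure (part q b '' T.flat.Z) :=
    image_closure_subset_closure_image hc ⟨x, hx, rfl⟩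
  have h3 : closure (part q b '' T.flat.Z) ⊆ closure T.flat.Z :=
    closure_minimal (by rintro _ ⟨z, hz, rfl⟩; exact h1 z hz) isClosed_closure
  exact h3 h2

/-- if `y` lives on the bases without `q` (with `q`), only the other part of `x` matters -/
theorem comb_part {A : Finset ℕ} {q : ℕ} {y x : Finset ℕ → ℝ} (b : Bool)
    (hy : ∀ I, decide (q ∈ I) = b → y I = 0) (hA : q ∉ A) :
    comb A q y x = comb A q y (part q b x) := by
  funext I
  unfold comb
  split_ifs with hq
  · rfl
  · have h1 : q ∉ I ∩ A := fun h => hq (Finset.mem_inter.1 h).1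
    have h2 : q ∉ I \ A := fun h => hq (Finset.mem_sdiff.1 h).1
    cases b
    · rw [hy (I ∩ A) (by simp [h1]), zero_mul, zero_mul, zero_add, zero_add]
      congr 1
      simp [part, h2]
    · rw [hy (insert q (I ∩ A)) (by simp), zero_mul, zero_mul, add_zero, add_zero]
      congr 1
      simp [part]

theorem not_alive {S : Net} {q : ℕ} (h : ¬ S.Alive q) : S.Loop q ∨ S.Coloop q := by
  by_contra h'
  push Not at h'
  obtain ⟨h1, h2⟩ := h'
  unfold Net.Loop at h1
  unfold Net.Coloop at h2
  push Not at h1 h2
  exact h ⟨h1, h2⟩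

theorem btsum_of (hR : RepStmt) (hF : FacetStmt) : BtsumStmt := by
  intro S T q hV hS hT z hz hz0 hzZ
  have hV' := hV
  obtain ⟨vS, vT, r1, r2, q1, q2, h3, h8⟩ := hV'
  obtain ⟨y, hy, x, hx, rfl, hbal⟩ := hR S T q hV z hz
  have hqE : q ∉ S.E.erase q := by simp
  have y0 : y ≠ 0 := by
    rintro rfl
    apply hz0
    funext I
    simp [comb]
  have x0 : x ≠ 0 := by
    rintro rfl
    apply hz0
    funext I
    simp [comb]
  -- transfers to facets
  have fL : ∀ S', Net.Facet S S' → (S.Alive q → S'.Alive q) → y ∈ closure S'.flat.Z →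
      ∃ S'', Net.Facet (Net.tsum S T q) S'' ∧ comb (S.E.erase q) q y x ∈ closure S''.flat.Z := by
    intro S' f ha hy'
    have f' := Net.Facet.tsumL S T S' q ha f
    refine ⟨_, f', comb_closure (hF _ _ hV f').1 ?_ hy' hx⟩
    rw [(hF _ _ vS f).2.1]
  have fR : ∀ T', Net.Facet T T' → (T.Alive q → T'.Alive q) → ∀ x' ∈ closure T'.flat.Z,
      comb (S.E.erase q) q y x = comb (S.E.erase q) q y x' →
      ∃ S'', Net.Facet (Net.tsum S T q) S'' ∧ comb (S.E.erase q) q y x ∈ closure S''.flat.Z := by
    intro T' f ha x' hx' e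
    have f' := Net.Facet.tsumR S T T' q ha f
    refine ⟨_, f', ?_⟩
    rw [e]
    exact comb_closure (hF _ _ hV f').1 rfl hy hx'
  by_cases hyZ : y ∈ S.flat.Z
  · -- `y` is in the cell, so `x` is not
    have hxZ : x ∉ T.flat.Z := fun hxZ => hzZ (by
      rw [znet.1 S T q hV]
      exact ⟨y, hyZ, x, hxZ, rfl⟩)
    obtain ⟨T', f, hx'⟩ := hT x hx x0 hxZ
    by_cases ha : T.Alive q → T'.Alive q
    · exact fR T' f ha x hx' rfl
    · exfalso
      push Not at ha
      obtain ⟨⟨⟨K1, hK1, qK1⟩, ⟨K0, hK0, qK0⟩⟩, hna⟩ := ha
      have vT' := (hF _ _ vT f).1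
      rcases not_alive hna with hl | hl
      · obtain ⟨K, hK, hp, hiff⟩ := hbal K1 hK1
        have : x K = 0 := clZ_zero vT' hx' fun h => hl K h (hiff.2 qK1)
        exact hp.ne' this
      · obtain ⟨K, hK, hp, hiff⟩ := hbal K0 hK0
        have : x K = 0 := clZ_zero vT' hx' fun h => qK0 (hiff.1 (hl K h))
        exact hp.ne' this
  · obtain ⟨S', f, hy'⟩ := hS y hy y0 hyZ
    by_cases ha : S.Alive q → S'.Alive q
    · exact fL S' f ha hy'
    · push Not at ha
      obtain ⟨haS, hna⟩ := ha
      have vS' := (hF _ _ vS f).1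
      -- `T` is alive
      have haT : T.Alive q := by
        rcases h8 with h | ⟨h, _⟩ | ⟨h, _⟩
        · exact h.2
        · obtain ⟨⟨I, hI, hq⟩, _⟩ := haS
          exact absurd hq (h I hI)
        · obtain ⟨_, ⟨I, hI, hq⟩⟩ := haS
          exact absurd (h I hI) hq
      -- a common argument
      have key : ∀ b : Bool, (∀ I ∈ S'.M, decide (q ∈ I) = !b) →
          (∃ K0 ∈ T.M, decide (q ∈ K0) = b) → (∃ K0 ∈ T.M, decide (q ∈ K0) = !b) →
          ∃ S'', Net.Facet (Net.tsum S T q) S'' ∧
            comb (S.E.erase q) q y x ∈ closure S''.flat.Z := by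
        intro b hb ⟨K0, hK0, qK0⟩ ⟨K1, hK1, qK1⟩
        have hyb : ∀ I, decide (q ∈ I) = b → y I = 0 := by
          intro I hI
          refine clZ_zero vS' hy' fun h => ?_
          have := hb I h
          rw [hI] at this
          cases b <;> simp at this
        have e := comb_part (x := x) b hyb hqE
        have hx1 : part q b x ∈ closure T.flat.Z := part_closure vT r2 q b hx
        obtain ⟨K, hK, hp, hiff⟩ := hbal K0 hK0
        have hKb : decide (q ∈ K) = b := by
          rw [← qK0]
          exact decide_eq_decide.2 hiff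
        have hpK : part q b x K = x K := by simp [part, hKb]
        have hx1ne : part q b x ≠ 0 := by
          intro h0
          have := congrFun h0 K
          rw [hpK] at this
          exact hp.ne' this
        have hx1Z : part q b x ∉ T.flat.Z := by
          intro h
          have := Z_pos vT h hK1
          have h0 : part q b x K1 = 0 := by
            simp only [part, qK1]
            cases b <;> simp
          exact this.ne' h0
        obtain ⟨T', f', hx'⟩ := hT _ hx1 hx1ne hx1Z
        have vT' := (hF _ _ vT f').1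
        by_cases haT' : T'.Alive q
        · exact fR T' f' (fun _ => haT') _ hx' e
        · -- `T'` is pure of the kind of `K`
          have hKT' : K ∈ T'.M := by
            by_contra h
            have := clZ_zero vT' hx' h
            rw [hpK] at this
            exact hp.ne' this
          have hTb : ∀ I ∈ T'.M, decide (q ∈ I) = b := by
            intro I hI
            rcases not_alive haT' with hl | hl
            · have h1 := hl I hI
              have h2 := hl K hKT'
              rw [← hKb]
              exact decide_eq_decide.2 ⟨fun h => absurd h h1, fun h => absurd h h2⟩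
            · have h1 := hl I hI
              have h2 := hl K hKT'
              rw [← hKb]
              exact decide_eq_decide.2 ⟨fun _ => h2, fun _ => h1⟩
          have hq : (S'.Loop q ∧ T'.Coloop q) ∨ (S'.Coloop q ∧ T'.Loop q) := by
            cases b
            · right
              exact ⟨fun I hI => by simpa using hb I hI, fun I hI => by simpa using hTb I hI⟩
            · left
              exact ⟨fun I hI => by simpa using hb I hI, fun I hI => by simpa using hTb I hI⟩
          have f'' := Net.Facet.tsumB S T S' T' q haS haT hq f f'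
          refine ⟨_, f'', ?_⟩
          rw [e]
          refine comb_closure (hF _ _ hV f'').1 ?_ hy' hx'
          rw [(hF _ _ vS f).2.1]
      obtain ⟨⟨K1, hK1, qK1⟩, ⟨K0, hK0, qK0⟩⟩ := haT
      rcases not_alive hna with hl | hl
      · exact key true (fun I hI => by simpa using hl I hI) ⟨K1, hK1, by simpa using qK1⟩
          ⟨K0, hK0, by simpa using qK0⟩
      · exact key false (fun I hI => by simpa using hl I hI) ⟨K0, hK0, by simpa using qK0⟩
          ⟨K1, hK1, by simpa using qK1⟩

end ABCT.H31
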