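import Pool.Agent.Helper31_ABCT.DTB
import Pool.Agent.Helper11_ABCT.Bal

/-!
# Module DTB: purity for `tsum` (final form)
-/

set_option autoImplicit false

namespace ABCT.H31

theorem rep : RepStmt := fun _ _ _ hV _ hz => ABCT.tsum_rep znet hV hz

theorem btsum (hF : FacetStmt) : BtsumStmt := btsum_of rep hF

end ABCT.H31
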