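import Pool.Agent.Helper32_ABCT.Api4
import Pool.Agent.Helper32_ABCT.Stmts2

/-!
# Module DZ: the vectors of `tsum` and `dsum`
-/

set_option autoImplicit false

open MvPolynomial

namespace ABCT.H31

open FlatCell

theorem prod_two (q : ℕ) (I : Finset ℕ) (σ τ : ℝ) :
    ∏ i ∈ I, (if i = q then τ else σ) = if q ∈ I then σ ^ (I.card - 1) * τ else σ ^ I.card := by
  split_ifs with h
  · rw [← Finset.mul_prod_erase I _ h, if_pos rfl, Finset.prod_congr rfl
      (fun i hi => if_neg (Finset.ne_of_mem_erase hi)), Finset.prod_const,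
      Finset.card_erase_of_mem h, mul_comm]
  · rw [Finset.prod_congr rfl (fun i hi => if_neg (by rintro rfl; exact h hi)), Finset.prod_const]

/-- scaling of the label variables -/
def scv (S : FlatCell) (q : ℕ) (σ τ : ℝ) (x : S.V → ℝ) : S.V → ℝ :=
  Sum.elim (fun i => (if i = q then τ else σ) * x (Sum.inl i)) (fun h => x (Sum.inr h))

theorem scv_pos {S : FlatCell} {q : ℕ} {σ τ : ℝ} {x : S.V → ℝ} (hσ : 0 < σ) (hτ : 0 < τ)
    (hx : ∀ v, 0 < x v) (v : S.V) : 0 < scv S q σ τ x v := by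
  rcases v with i | h
  · simp only [scv, Sum.elim_inl]
    split_ifs
    · exact mul_pos hτ (hx _)
    · exact mul_pos hσ (hx _)
  · exact hx _

theorem scv_ev (S : FlatCell) (q : ℕ) (σ τ : ℝ) (x : S.V → ℝ) (I : Finset ℕ) :
    S.ev (scv S q σ τ x) I =
      (if q ∈ I then σ ^ (I.card - 1) * τ else σ ^ I.card) * S.ev x I := by
  rw [ev_eq, ev_eq, ← prod_two]
  simp only [scv, Sum.elim_inl, Sum.elim_inr]
  rw [Finset.prod_mul_distrib, mul_assoc]

/-- scaling of a vector -/
def sclv (q : ℕ) (a b : ℝ) (z : Finset ℕ → ℝ) : Finset ℕ → ℝ :=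
  fun I => (if q ∈ I then b else a) * z I

theorem exists_root {a : ℝ} (ha : 0 < a) {n : ℕ} (hn : 1 ≤ n) : ∃ σ : ℝ, 0 < σ ∧ σ ^ n = a :=
  ⟨a ^ ((n : ℝ)⁻¹), Real.rpow_pos_of_pos ha _, Real.rpow_inv_natCast_pow ha.le (by omega)⟩

theorem sclv_mem {S : Net} (hS : S.Valid) (hr : 1 ≤ S.rk) {q : ℕ} {a b : ℝ} (ha : 0 < a)
    (hb : 0 < b) {z : Finset ℕ → ℝ} (hz : z ∈ S.flat.Z) : sclv q a b z ∈ S.flat.Z := by
  obtain ⟨x, hx, rfl⟩ := hz
  obtain ⟨σ, hσ, hσa⟩ := exists_root ha hr
  have hτ : 0 < b / σ ^ (S.rk - 1) := by positivity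
  refine ⟨scv S.flat q σ (b / σ ^ (S.rk - 1)) x, scv_pos hσ hτ hx, ?_⟩
  funext I
  rw [scv_ev]
  simp only [sclv]
  by_cases hI : I ∈ S.M
  · rw [(Net.wf' S hS).card I hI, hσa]
    congr 1
    split_ifs
    · field_simp
    · rfl
  · rw [ev_ne_mem hS _ _ hI, mul_zero, mul_zero]

/-- the vector of the variables with the value of `q` replaced by `1` -/
def one_q (S : FlatCell) (q : ℕ) (x : S.V → ℝ) : S.V → ℝ :=
  Sum.elim (fun i => if i = q then 1 else x (Sum.inl i)) (fun h => x (Sum.inr h))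

theorem one_q_pos {S : FlatCell} {q : ℕ} {x : S.V → ℝ} (hx : ∀ v, 0 < x v) (v : S.V) :
    0 < one_q S q x v := by
  rcases v with i | h
  · simp only [one_q, Sum.elim_inl]
    split_ifs
    · exact one_pos
    · exact hx _
  · exact hx _

theorem one_q_ev (S : FlatCell) (q : ℕ) (x : S.V → ℝ) (I : Finset ℕ) :
    S.ev x I = (if q ∈ I then x (Sum.inl q) else 1) * S.ev (one_q S q x) I := by
  have h1 : scv S q 1 (x (Sum.inl q)) (one_q S q x) = x := by
    funext v
    rcases v with i | h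
    · simp only [scv, one_q, Sum.elim_inl]
      by_cases h : i = q
      · subst h
        simp
      · simp [h]
    · rfl
  have h2 := scv_ev S q 1 (x (Sum.inl q)) (one_q S q x) I
  rw [h1] at h2
  simpa using h2

theorem comb_mem {S T : Net} {q : ℕ} (hV : (Net.tsum S T q).Valid) {y z : Finset ℕ → ℝ}
    (hy : ∀ I, I ∉ S.M → y I = 0) (hz : ∀ I, I ∉ T.M → z I = 0) {J K : Finset ℕ}
    (hJ : J ∈ S.M) (hK : K ∈ T.M) (hq : Xq q J K) :
    comb (S.E.erase q) q y z ((J ∪ K).erase q) = y J * z K := by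
  obtain ⟨h1, h2, r1, r2, q1, q2, h3, h8⟩ := hV
  have wS := Net.wf' S h1
  have wT := Net.wf' T h2
  obtain ⟨e1, e2⟩ := tsum_split (q := q) (wS.sub J hJ) (wT.sub K hK) h3
  have e3 : (J ∪ K).erase q \ S.E.erase q = K.erase q := by
    ext x
    have hd := h3
    rw [Finset.disjoint_left] at hd
    simp only [Finset.mem_sdiff, Finset.mem_erase, Finset.mem_union]
    constructor
    · rintro ⟨⟨h4, h5⟩, h6⟩
      refine ⟨h4, h5.resolve_left fun h7 => h6 ⟨h4, wS.sub J hJ h7⟩⟩
    · rintro ⟨h4, h5⟩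
      refine ⟨⟨h4, Or.inr h5⟩, fun h6 => ?_⟩
      exact hd (Finset.mem_erase.2 h6) (Finset.mem_erase.2 ⟨h4, wT.sub K hK h5⟩)
  unfold comb
  rw [if_neg (by simp), e1, e3]
  rcases hq with ⟨h4, h5⟩ | ⟨h4, h5⟩
  · have h6 : y (J.erase q) = 0 := by
      refine hy _ fun h => ?_
      have := wS.card _ h
      rw [Finset.card_erase_of_mem h4, wS.card J hJ] at this
      omega
    rw [h6, zero_mul, zero_add, Finset.insert_erase h4, Finset.erase_eq_of_notMem h5]
  · have h6 : z (K.erase q) = 0 := by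
      refine hz _ fun h => ?_
      have := wT.card _ h
      rw [Finset.card_erase_of_mem h5, wT.card K hK] at this
      omega
    rw [h6, mul_zero, add_zero, Finset.insert_erase h5, Finset.erase_eq_of_notMem h4]

theorem comb_notMem {S T : Net} {q : ℕ} (hV : (Net.tsum S T q).Valid) {y z : Finset ℕ → ℝ}
    (hy : ∀ I, I ∉ S.M → y I = 0) (hz : ∀ I, I ∉ T.M → z I = 0) {I : Finset ℕ}
    (hI : I ∉ (Net.tsum S T q).M) : comb (S.E.erase q) q y z I = 0 := by
  unfold comb
  split_ifs with hq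
  · rfl
  · have e1 : ∀ A B : Finset ℕ, q ∉ A → q ∉ B → A ∪ B = I →
        (A ∪ insert q B).erase q = I := by
      intro A B hA hB h
      rw [Finset.union_insert, Finset.erase_insert_eq_erase, h, Finset.erase_eq_of_notMem hq]
    have qA : q ∉ I ∩ S.E.erase q := fun h => hq (Finset.mem_inter.1 h).1
    have qB : q ∉ I \ S.E.erase q := fun h => hq (Finset.mem_sdiff.1 h).1
    have hU : I ∩ S.E.erase q ∪ I \ S.E.erase q = I := by
      ext x
      simp only [Finset.mem_union, Finset.mem_inter, Finset.mem_sdiff]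
      tauto
    have t1 : y (I ∩ S.E.erase q) * z (insert q (I \ S.E.erase q)) = 0 := by
      by_contra h
      have h1 : I ∩ S.E.erase q ∈ S.M := by
        by_contra h1
        exact h (by rw [hy _ h1, zero_mul])
      have h2 : insert q (I \ S.E.erase q) ∈ T.M := by
        by_contra h2
        exact h (by rw [hz _ h2, mul_zero])
      refine hI ((tsum_M I).2 ⟨_, h1, _, h2, Or.inr ⟨qA, Finset.mem_insert_self _ _⟩, ?_⟩)
      exact (e1 _ _ qA qB hU).symm
    have t2 : y (insert q (I ∩ S.E.erase q)) * z (I \ S.E.erase q) = 0 := by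
      by_contra h
      have h1 : insert q (I ∩ S.E.erase q) ∈ S.M := by
        by_contra h1
        exact h (by rw [hy _ h1, zero_mul])
      have h2 : I \ S.E.erase q ∈ T.M := by
        by_contra h2
        exact h (by rw [hz _ h2, mul_zero])
      refine hI ((tsum_M I).2 ⟨_, h1, _, h2, Or.inl ⟨Finset.mem_insert_self _ _, qB⟩, ?_⟩)
      rw [Finset.union_comm]
      exact (e1 _ _ qB qA (by rw [Finset.union_comm, hU])).symm
    rw [t1, t2, add_zero]

theorem prodv_mem {S T : Net} (hV : (Net.dsum S T).Valid) {y z : Finset ℕ → ℝ} {J K : Finset ℕ}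
    (hJ : J ∈ S.M) (hK : K ∈ T.M) : prodv S.E y z (J ∪ K) = y J * z K := by
  obtain ⟨h1, h2, h3⟩ := hV
  have wS := Net.wf' S h1
  have wT := Net.wf' T h2
  rw [Finset.disjoint_left] at h3
  unfold prodv
  have e1 : (J ∪ K) ∩ S.E = J := by
    ext x
    simp only [Finset.mem_inter, Finset.mem_union]
    constructor
    · rintro ⟨h1 | h1, h2⟩
      · exact h1
      · exact absurd (wT.sub K hK h1) (h3 h2)
    · intro h; exact ⟨Or.inl h, wS.sub J hJ h⟩
  have e2 : (J ∪ K) \ S.E = K := by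
    ext x
    simp only [Finset.mem_sdiff, Finset.mem_union]
    constructor
    · rintro ⟨h1 | h1, h2⟩
      · exact absurd (wS.sub J hJ h1) h2
      · exact h1
    · intro h; exact ⟨Or.inr h, fun h' => h3 h' (wT.sub K hK h)⟩
  rw [e1, e2]

theorem prodv_notMem {S T : Net} {y z : Finset ℕ → ℝ}
    (hy : ∀ I, I ∉ S.M → y I = 0) (hz : ∀ I, I ∉ T.M → z I = 0) {I : Finset ℕ}
    (hI : I ∉ (Net.dsum S T).M) : prodv S.E y z I = 0 := by
  unfold prodv
  by_contra h
  have h1 : I ∩ S.E ∈ S.M := by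
    by_contra h1
    exact h (by rw [hy _ h1, zero_mul])
  have h2 : I \ S.E ∈ T.M := by
    by_contra h2
    exact h (by rw [hz _ h2, mul_zero])
  refine hI ((dsum_M I).2 ⟨_, h1, _, h2, ?_⟩)
  ext x
  simp only [Finset.mem_union, Finset.mem_inter, Finset.mem_sdiff]
  tauto

theorem Z_zero {S : Net} (hS : S.Valid) {y : Finset ℕ → ℝ} (hy : y ∈ S.flat.Z) (I : Finset ℕ)
    (hI : I ∉ S.M) : y I = 0 := by
  obtain ⟨x, -, rfl⟩ := hy
  exact ev_ne_mem hS _ _ hI

theorem tsum_Z (S T : Net) (q : ℕ) (hV : (Net.tsum S T q).Valid) : (Net.tsum S T q).flat.Z =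
    {x | ∃ y ∈ S.flat.Z, ∃ z ∈ T.flat.Z, x = comb (S.E.erase q) q y z} := by
  have hV' := hV
  obtain ⟨h1, h2, r1, r2, q1, q2, h3, h8⟩ := hV'
  have wS := Net.wf' S h1
  have wT := Net.wf' T h2
  have hd := h3
  rw [Finset.disjoint_left] at hd
  ext L
  constructor
  · rintro ⟨x, hx, rfl⟩
    have my : S.flat.ev (one_q S.flat q fun v => x (vtL S T q v)) ∈ S.flat.Z :=
      ⟨_, one_q_pos fun v => hx _, rfl⟩
    have mz : T.flat.ev (one_q T.flat q fun v => x (vtR S T q v)) ∈ T.flat.Z :=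
      ⟨_, one_q_pos fun v => hx _, rfl⟩
    refine ⟨_, my, _, mz, ?_⟩
    funext I
    by_cases hI : I ∈ (Net.tsum S T q).M
    · obtain ⟨J, hJ, K, hK, hq, rfl⟩ := (tsum_M I).1 hI
      rw [comb_mem hV (Z_zero h1 my) (Z_zero h2 mz) hJ hK hq]
      have e := tsum_ev hV x J K hJ hK hq
      rw [one_q_ev S.flat q (fun v => x (vtL S T q v)) J,
        one_q_ev T.flat q (fun v => x (vtR S T q v)) K] at e
      have hxq : x (Sum.inl q) ≠ 0 := (hx _).ne'
      have v1 : x (vtL S T q (Sum.inl q)) = x (Sum.inl q) := rfl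
      have v2 : x (vtR S T q (Sum.inl q)) = x (Sum.inl q) := rfl
      apply mul_right_cancel₀ hxq
      rw [e]
      rcases hq with ⟨h4, h5⟩ | ⟨h4, h5⟩
      · rw [if_pos h4, if_neg h5, v1]
        ring
      · rw [if_neg h4, if_pos h5, v2]
        ring
    · rw [comb_notMem hV (Z_zero h1 my) (Z_zero h2 mz) hI]
      exact ev_ne_mem hV _ _ hI
  · rintro ⟨y, hy, z, hz, rfl⟩
    have hy0 := Z_zero h1 hy
    have hz0 := Z_zero h2 hz
    obtain ⟨a, ha, rfl⟩ := hy
    obtain ⟨b, hb, rfl⟩ := hz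
    set α := a (Sum.inl q) with hα
    set β := b (Sum.inl q) with hβ
    have hαp : 0 < α := ha _
    have hβp : 0 < β := hb _
    -- scaling factors
    obtain ⟨τ, hτ, hτe⟩ := exists_root (a := α * (α / β) ^ (S.rk - 1)) (by positivity)
      (n := S.rk - 1 + T.rk) (by omega)
    set σ := τ * β / α with hσ
    have hσp : 0 < σ := by positivity
    have s1 : σ ^ (S.rk - 1) * τ ^ T.rk = α := by
      rw [hσ, div_pow, mul_pow]
      have : τ ^ (S.rk - 1) * τ ^ T.rk = α * (α / β) ^ (S.rk - 1) := by rw [← pow_add, hτe]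
      calc τ ^ (S.rk - 1) * β ^ (S.rk - 1) / α ^ (S.rk - 1) * τ ^ T.rk
          = (τ ^ (S.rk - 1) * τ ^ T.rk) * (β ^ (S.rk - 1) / α ^ (S.rk - 1)) := by ring
        _ = α := by
          rw [this, div_pow]
          field_simp
    have s2 : σ ^ S.rk * τ ^ (T.rk - 1) = β := by
      have e1 : σ ^ S.rk = σ ^ (S.rk - 1) * σ := by
        rw [← pow_succ]; congr 1; omega
      have e2 : τ ^ T.rk = τ ^ (T.rk - 1) * τ := by
        rw [← pow_succ]; congr 1; omega
      have e3 : σ * α = τ * β := by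
        rw [hσ]; field_simp
      rw [e2] at s1
      have e4 : (σ ^ S.rk * τ ^ (T.rk - 1)) * τ = β * τ := by
        calc (σ ^ S.rk * τ ^ (T.rk - 1)) * τ = (σ ^ (S.rk - 1) * (τ ^ (T.rk - 1) * τ)) * σ := by
              rw [e1]; ring
          _ = α * σ := by rw [s1]
          _ = β * τ := by rw [mul_comm, e3, mul_comm]
      exact mul_right_cancel₀ hτ.ne' e4
    -- the point
    let x : (Net.tsum S T q).flat.V → ℝ := Sum.elim
      (fun i => if i = q then 1 else if i ∈ S.E then σ * a (Sum.inl i) else τ * b (Sum.inl i))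
      (Sum.elim (fun h => a (Sum.inr h)) (fun h => b (Sum.inr h)))
    have hx : ∀ v, 0 < x v := by
      rintro (i | h | h)
      · simp only [x, Sum.elim_inl]
        split_ifs
        · exact one_pos
        · exact mul_pos hσp (ha _)
        · exact mul_pos hτ (hb _)
      · exact ha _
      · exact hb _
    refine ⟨x, hx, ?_⟩
    funext I
    by_cases hI : I ∈ (Net.tsum S T q).M
    · obtain ⟨J, hJ, K, hK, hq, rfl⟩ := (tsum_M I).1 hI
      rw [comb_mem hV hy0 hz0 hJ hK hq]
      have e := tsum_ev hV x J K hJ hK hq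
      have x1 : x (Sum.inl q) = 1 := by simp [x]
      rw [x1, mul_one] at e
      rw [e]
      have e1 : S.flat.ev (fun v => x (vtL S T q v)) J =
          S.flat.ev (scv S.flat q σ 1 (one_q S.flat q a)) J := by
        refine ev_congr _ _ _ _ ?_ fun h => rfl
        intro i hi
        simp only [x, vtL, Function.Embedding.coeFn_mk, Sum.map_inl, id_eq, Sum.elim_inl, scv,
          one_q]
        by_cases h : i = q
        · simp [h]
        · simp [h, wS.sub J hJ hi]
      have e2 : T.flat.ev (fun v => x (vtR S T q v)) K =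
          T.flat.ev (scv T.flat q τ 1 (one_q T.flat q b)) K := by
        refine ev_congr _ _ _ _ ?_ fun h => rfl
        intro i hi
        simp only [x, vtR, Function.Embedding.coeFn_mk, Sum.map_inl, id_eq, Sum.elim_inl, scv,
          one_q]
        by_cases h : i = q
        · simp [h]
        · have : i ∉ S.E := fun h' =>
            hd (Finset.mem_erase.2 ⟨h, h'⟩) (Finset.mem_erase.2 ⟨h, wT.sub K hK hi⟩)
          simp [h, this]
      rw [e1, e2, scv_ev, scv_ev, one_q_ev S.flat q a J, one_q_ev T.flat q b K,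
        wS.card J hJ, wT.card K hK, ← hα, ← hβ]
      rcases hq with ⟨h4, h5⟩ | ⟨h4, h5⟩
      · rw [if_pos h4, if_neg h5, if_pos h4, if_neg h5]
        have := s1
        linear_combination (-(S.flat.ev (one_q S.flat q a) J * T.flat.ev (one_q T.flat q b) K)) * this
      · rw [if_neg h4, if_pos h5, if_neg h4, if_pos h5]
        have := s2
        linear_combination (-(S.flat.ev (one_q S.flat q a) J * T.flat.ev (one_q T.flat q b) K)) * this
    · rw [comb_notMem hV hy0 hz0 hI]
      exact (ev_ne_mem hV _ _ hI).symm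

theorem dsum_Z (S T : Net) (hV : (Net.dsum S T).Valid) : (Net.dsum S T).flat.Z =
    {x | ∃ y ∈ S.flat.Z, ∃ z ∈ T.flat.Z, x = prodv S.E y z} := by
  have hV' := hV
  obtain ⟨h1, h2, h3⟩ := hV'
  have wS := Net.wf' S h1
  have wT := Net.wf' T h2
  rw [Finset.disjoint_left] at h3
  ext L
  constructor
  · rintro ⟨x, hx, rfl⟩
    have my : S.flat.ev (fun v => x (vdL S T v)) ∈ S.flat.Z := ⟨_, fun v => hx _, rfl⟩
    have mz : T.flat.ev (fun v => x (vdR S T v)) ∈ T.flat.Z := ⟨_, fun v => hx _, rfl⟩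
    refine ⟨_, my, _, mz, ?_⟩
    funext I
    by_cases hI : I ∈ (Net.dsum S T).M
    · obtain ⟨J, hJ, K, hK, rfl⟩ := (dsum_M I).1 hI
      rw [prodv_mem hV hJ hK]
      exact dsum_ev hV x J K hJ hK
    · rw [prodv_notMem (Z_zero h1 my) (Z_zero h2 mz) hI]
      exact ev_ne_mem hV _ _ hI
  · rintro ⟨y, hy, z, hz, rfl⟩
    have hy0 := Z_zero h1 hy
    have hz0 := Z_zero h2 hz
    obtain ⟨a, ha, rfl⟩ := hy
    obtain ⟨b, hb, rfl⟩ := hz
    let x : (Net.dsum S T).flat.V → ℝ := Sum.elim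
      (fun i => if i ∈ S.E then a (Sum.inl i) else b (Sum.inl i))
      (Sum.elim (fun h => a (Sum.inr h)) (fun h => b (Sum.inr h)))
    have hx : ∀ v, 0 < x v := by
      rintro (i | h | h)
      · simp only [x, Sum.elim_inl]
        split_ifs
        · exact ha _
        · exact hb _
      · exact ha _
      · exact hb _
    refine ⟨x, hx, ?_⟩
    funext I
    by_cases hI : I ∈ (Net.dsum S T).M
    · obtain ⟨J, hJ, K, hK, rfl⟩ := (dsum_M I).1 hI
      rw [prodv_mem hV hJ hK, dsum_ev hV x J K hJ hK]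
      congr 1
      · refine ev_congr _ _ _ _ ?_ fun h => rfl
        intro i hi
        simp [x, vdL, wS.sub J hJ hi]
      · refine ev_congr _ _ _ _ ?_ fun h => rfl
        intro i hi
        have : i ∉ S.E := fun h' => h3 h' (wT.sub K hK hi)
        simp [x, vdR, this]
    · rw [prodv_notMem hy0 hz0 hI]
      exact (ev_ne_mem hV _ _ hI).symm

theorem znet : ZnetStmt := ⟨tsum_Z, dsum_Z⟩

end ABCT.H31
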