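import Pool.Agent.Helper93_ABCT.StmtK
import Pool.Agent.Helper32_ABCT.Api2

/-!
# Module KCLO: positive part and closure of a normal form
-/

set_option autoImplicit false

open MvPolynomial Topology

namespace PosGeom.H31

open ABCT FlatCell

theorem evN_map {σ R R' : Type} [CommSemiring R] [CommSemiring R'] (f : R →+* R') (x : σ → R)
    (p : MvPolynomial σ ℕ) : f (evN x p) = evN (fun j => f (x j)) p := by
  unfold evN
  rw [eval₂_comp_left f (Nat.castRingHom R) x p]
  congr 1
  exact Subsingleton.elim _ _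

/-- value of a Laurent monomial -/
noncomputable def lm {V K : Type} [Field K] (x : V → K) (m : V →₀ ℤ) : K :=
  m.prod fun v n => x v ^ n

theorem ev_formula (hL : KlauStmt) {ι : Type} [Fintype ι] {emb : ι → Finset ℕ} {S : FlatCell}
    {d : ℕ} {N : NCell ι d} {b : Fin d → (S.V →₀ ℤ)} {a : ℕ} (hN : IsNormal emb S N b a) :
    ∃ ν : S.V →₀ ℤ, ∀ (K : Type) [Field K] [Algebra ℂ K] (x : S.V → K), (∀ v, x v ≠ 0) →
      ∀ i, S.ev x (emb i) = lm x ν * evN (fun j => lm x (b j)) (N.L i) := by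
  obtain ⟨ν, hν⟩ := hN.eq
  refine ⟨ν, fun K _ _ x hx i => ?_⟩
  obtain ⟨R, ρ, h1, h2⟩ := hL S K x hx
  obtain ⟨hP, eP⟩ := h2 (emb i)
  obtain ⟨hn, en⟩ := h1 ν
  choose hb eb using fun j => h1 (b j)
  have e1 : (⟨S.P (emb i), hP⟩ : R) = ⟨S.mono ν, hn⟩ *
      evN (fun j => (⟨S.mono (b j), hb j⟩ : R)) (N.L i) := by
    apply Subtype.ext
    have e2 := evN_map (R.subtype) (fun j => (⟨S.mono (b j), hb j⟩ : R)) (N.L i)
    change S.P (emb i) = S.mono ν * R.subtype (evN (fun j => (⟨S.mono (b j), hb j⟩ : R)) (N.L i))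
    rw [e2, hν i]
    rfl
  have e3 := congrArg ρ e1
  rw [eP, map_mul, en] at e3
  rw [e3]
  have e4 := evN_map (ρ : R →+* K) (fun j => (⟨S.mono (b j), hb j⟩ : R)) (N.L i)
  have e5 : ρ (evN (fun j => (⟨S.mono (b j), hb j⟩ : R)) (N.L i)) =
      evN (fun j => ρ (⟨S.mono (b j), hb j⟩ : R)) (N.L i) := e4
  rw [e5]
  simp only [eb]
  rfl

/-- the logarithmic solution: integer vectors that are independent over `ℤ` -/
theorem exists_log {V : Type} {n : ℕ} (m : Fin n → (V →₀ ℤ)) (hm : LinearIndependent ℤ m)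
    (r : Fin n → ℝ) : ∃ l : V → ℝ, ∀ j, ((m j).sum fun v k => (k : ℝ) * l v) = r j := by
  classical
  -- independence over `ℚ`
  let c : (V →₀ ℤ) →ₗ[ℤ] (V →₀ ℚ) :=
    Finsupp.mapRange.linearMap (Int.castAddHom ℚ).toIntLinearMap
  have hc : LinearMap.ker c = ⊥ := by
    rw [LinearMap.ker_eq_bot]
    exact Finsupp.mapRange_injective _ (by simp) Int.cast_injective
  have h1 : LinearIndependent ℤ (c ∘ m) := hm.map' c hc
  have h2 : LinearIndependent ℚ (c ∘ m) := (LinearIndependent.iff_fractionRing ℤ ℚ).1 h1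
  obtain ⟨g, hg⟩ := LinearMap.exists_leftInverse_of_injective
    (Fintype.linearCombination ℚ (c ∘ m))
    (LinearMap.ker_eq_bot.2 (linearIndependent_iff_injective_fintypeLinearCombination.1 h2))
  have h3 : ∀ k, g (c (m k)) = Pi.single k 1 := by
    intro k
    have := LinearMap.congr_fun hg (Pi.single k 1)
    rw [LinearMap.comp_apply, Fintype.linearCombination_apply_single] at this
    simpa using this
  refine ⟨fun v => ∑ j, ((g (Finsupp.single v 1) j : ℚ) : ℝ) * r j, fun k => ?_⟩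
  have h4 : ∀ j, ((m k).sum fun v n => (n : ℚ) * g (Finsupp.single v 1) j) =
      (Pi.single k 1 : Fin n → ℚ) j := by
    intro j
    rw [← h3 k]
    have h5 : c (m k) = (m k).sum fun v n => (n : ℚ) • Finsupp.single v (1 : ℚ) := by
      rw [← Finsupp.sum_single (c (m k))]
      change ((m k).mapRange (fun n : ℤ => (n : ℚ)) (by simp)).sum Finsupp.single = _
      rw [Finsupp.sum_mapRange_index (by simp)]
      refine Finsupp.sum_congr fun v _ => ?_
      simp
    rw [h5]
    simp only [Finsupp.sum, map_sum, Finset.sum_apply, map_smul, Pi.smul_apply, smul_eq_mul]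
  have h6 : ((m k).sum fun v n => (n : ℝ) * ∑ j, ((g (Finsupp.single v 1) j : ℚ) : ℝ) * r j) =
      ∑ j, (((m k).sum fun v n => (n : ℚ) * g (Finsupp.single v 1) j : ℚ) : ℝ) * r j := by
    simp only [Finsupp.sum, Finset.mul_sum, Rat.cast_sum, Rat.cast_mul, Rat.cast_intCast,
      Finset.sum_mul]
    rw [Finset.sum_comm]
    refine Finset.sum_congr rfl fun j _ => Finset.sum_congr rfl fun v _ => ?_
    ring
  rw [h6]
  simp only [h4]
  rw [Finset.sum_eq_single k]
  · simp
  · intro j _ hj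
    simp [hj]
  · simp

/-- weights of the label degree -/
def lw (S : FlatCell) : S.V → ℤ := Sum.elim (fun _ => 1) (fun _ => 0)

/-- the label degree -/
noncomputable def ldeg (S : FlatCell) (m : S.V →₀ ℤ) : ℤ := m.sum fun v n => n * lw S v

theorem ldeg_add (S : FlatCell) (m n : S.V →₀ ℤ) : ldeg S (m + n) = ldeg S m + ldeg S n :=
  Finsupp.sum_add_index' (fun _ => by simp) (fun _ _ _ => by ring)

theorem ldeg_zero (S : FlatCell) : ldeg S 0 = 0 := by simp [ldeg]

theorem ldeg_neg (S : FlatCell) (m : S.V →₀ ℤ) : ldeg S (-m) = -ldeg S m := by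
  have := ldeg_add S m (-m)
  rw [add_neg_cancel, ldeg_zero] at this
  omega

theorem ldeg_sub (S : FlatCell) (m n : S.V →₀ ℤ) : ldeg S (m - n) = ldeg S m - ldeg S n := by
  rw [sub_eq_add_neg, ldeg_add, ldeg_neg]
  omega

theorem ldeg_smul (S : FlatCell) (c : ℤ) (m : S.V →₀ ℤ) : ldeg S (c • m) = c * ldeg S m := by
  unfold ldeg
  rw [Finsupp.sum_smul_index (by simp), Finsupp.mul_sum]
  exact Finsupp.sum_congr fun v _ => by ring

theorem lm_two (S : FlatCell) (m : S.V →₀ ℤ) :
    lm (fun v : S.V => (2 : ℝ) ^ lw S v) m = 2 ^ ldeg S m := by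
  unfold lm ldeg Finsupp.prod Finsupp.sum
  rw [ABCT.zpow_sum₀ (two_ne_zero) _ _]
  refine Finset.prod_congr rfl fun v _ => ?_
  beta_reduce
  rw [← zpow_mul, mul_comm]

theorem ldeg_pol (S : FlatCell) (I : Finset ℕ) (μ : S.V →₀ ℕ) (hμ : μ ∈ (S.pol I).support) :
    ldeg S (zexp μ) = I.card := by
  classical
  -- weighted homogeneity
  have hz : ∀ μ : S.V →₀ ℕ, ldeg S (zexp μ) = ∑ v ∈ μ.support, (μ v : ℤ) * lw S v := by
    intro μ
    unfold ldeg zexp
    rw [Finsupp.sum_mapRange_index (by simp)]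
    rfl
  have hadd : ∀ μ ν : S.V →₀ ℕ, ldeg S (zexp (μ + ν)) = ldeg S (zexp μ) + ldeg S (zexp ν) := by
    intro μ ν
    rw [← ldeg_add]
    congr 1
    ext v
    simp [zexp]
  have hmul : ∀ (f g : MvPolynomial S.V ℕ) (a b : ℤ),
      (∀ μ ∈ f.support, ldeg S (zexp μ) = a) → (∀ μ ∈ g.support, ldeg S (zexp μ) = b) →
      ∀ μ ∈ (f * g).support, ldeg S (zexp μ) = a + b := by
    intro f g a b hf hg μ hμ
    have := support_mul f g hμ
    rw [Finset.mem_add] at this
    obtain ⟨x, hx, y, hy, rfl⟩ := this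
    rw [hadd, hf x hx, hg y hy]
  have hprod : ∀ J : Finset ℕ, ∀ μ ∈ (∏ i ∈ J, (X (Sum.inl i) : MvPolynomial S.V ℕ)).support,
      ldeg S (zexp μ) = J.card := by
    intro J
    induction J using Finset.induction_on with
    | empty =>
      intro μ hμ
      rw [Finset.prod_empty] at hμ
      have : μ = 0 := by
        by_contra h
        rw [mem_support_iff, coeff_one, if_neg (Ne.symm h)] at hμ
        exact hμ rfl
      subst this
      rw [hz]
      simp
    | insert i I hi ih =>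
      intro μ hμ
      rw [Finset.prod_insert hi] at hμ
      rw [Finset.card_insert_of_notMem hi]
      have := hmul _ _ 1 I.card ?_ ih μ hμ
      · rw [this]; push_cast; ring
      · intro ν hν
        rw [support_X, Finset.mem_singleton] at hν
        subst hν
        rw [hz]
        rw [Finsupp.support_single_ne_zero _ one_ne_zero, Finset.sum_singleton]
        simp [lw]
  have hren : ∀ μ ∈ (rename Sum.inr (S.Δ I) : MvPolynomial S.V ℕ).support,
      ldeg S (zexp μ) = 0 := by
    intro μ hμ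
    rw [support_rename_of_injective Sum.inr_injective, Finset.mem_image] at hμ
    obtain ⟨κ, -, rfl⟩ := hμ
    rw [hz]
    refine Finset.sum_eq_zero fun v hv => ?_
    have := Finsupp.mapDomain_support hv
    rw [Finset.mem_image] at this
    obtain ⟨h, -, rfl⟩ := this
    simp [lw]
  have := hmul _ _ _ _ (hprod I) hren μ hμ
  rw [this, add_zero]

theorem ldeg_Lam {S : FlatCell} (hS : S.Wf) {m : S.V →₀ ℤ} (hm : m ∈ S.Lam) : ldeg S m = 0 := by
  unfold FlatCell.Lam at hm
  induction hm using AddSubgroup.closure_induction with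
  | mem x hx =>
    obtain ⟨I, hI, J, hJ, μ, hμ, ν, hν, rfl⟩ := hx
    rw [ldeg_sub, ldeg_pol S I μ hμ, ldeg_pol S J ν hν, hS.card I hI J hJ]
    omega
  | zero => exact ldeg_zero S
  | add x y _ _ hx hy => rw [ldeg_add, hx, hy]; rfl
  | neg x _ hx => rw [ldeg_neg, hx]; rfl

theorem ev_formula_real (hL : KlauStmt) {ι : Type} [Fintype ι] {emb : ι → Finset ℕ}
    {S : FlatCell} {d : ℕ} {N : NCell ι d} {b : Fin d → (S.V →₀ ℤ)} {a : ℕ}
    (hN : IsNormal emb S N b a) :
    ∃ ν : S.V →₀ ℤ, ∀ (x : S.V → ℝ), (∀ v, x v ≠ 0) →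
      ∀ i, S.ev x (emb i) = lm x ν * evN (fun j => lm x (b j)) (N.L i) := by
  obtain ⟨ν, hν⟩ := ev_formula hL hN
  refine ⟨ν, fun x hx i => ?_⟩
  have h1 := hν ℂ (fun v => ((x v : ℝ) : ℂ)) (fun v => by exact_mod_cast hx v) i
  have h2 := map_ev S Complex.ofRealHom x (emb i)
  have h3 := evN_map Complex.ofRealHom (fun j => lm x (b j)) (N.L i)
  have h4 : ∀ m : S.V →₀ ℤ, Complex.ofRealHom (lm x m) = lm (fun v => ((x v : ℝ) : ℂ)) m := by
    intro m
    unfold lm
    rw [Finsupp.prod, map_prod, Finsupp.prod]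
    refine Finset.prod_congr rfl fun v _ => ?_
    rw [map_zpow₀]
    rfl
  apply Complex.ofReal_injective
  have h5 : Complex.ofRealHom (S.ev x (emb i)) =
      Complex.ofRealHom (lm x ν * evN (fun j => lm x (b j)) (N.L i)) := by
    rw [h2, map_mul, h3, h4]
    simp only [h4]
    exact h1
  exact h5

theorem evN_pos {σ : Type} {x : σ → ℝ} (hx : ∀ j, 0 < x j) {p : MvPolynomial σ ℕ} (hp : p ≠ 0) :
    0 < evN x p := by
  unfold evN
  rw [eval₂_eq]
  refine Finset.sum_pos (fun m hm => mul_pos ?_ (Finset.prod_pos fun i _ => pow_pos (hx _) _)) ?_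
  · simp only [eq_natCast, Nat.cast_pos]
    exact Nat.pos_of_ne_zero (mem_support_iff.1 hm)
  · exact support_nonempty.2 hp

theorem lm_pos {V : Type} {x : V → ℝ} (hx : ∀ v, 0 < x v) (m : V →₀ ℤ) : 0 < lm x m :=
  Finset.prod_pos fun v _ => zpow_pos (hx v) _

theorem lm_exp {V : Type} (l : V → ℝ) (m : V →₀ ℤ) :
    lm (fun v => Real.exp (l v)) m = Real.exp (m.sum fun v k => (k : ℝ) * l v) := by
  unfold lm Finsupp.prod Finsupp.sum
  rw [Real.exp_sum]
  refine Finset.prod_congr rfl fun v _ => ?_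
  beta_reduce
  rw [mul_comm, Real.exp_mul, Real.rpow_intCast]

/-- the support of the normal form -/
theorem exists_mem {ι : Type} [Fintype ι] {emb : ι → Finset ℕ} {S : FlatCell}
    (hS : FOk emb S) : ∃ i, emb i ∈ S.M := by
  obtain ⟨I, hI⟩ := hS.wf.nonempty
  obtain ⟨i, rfl⟩ := hS.sub I hI
  exact ⟨i, hI⟩

theorem nu_deg {ι : Type} [Fintype ι] {emb : ι → Finset ℕ}
    {S : FlatCell} (hS : FOk emb S) {d : ℕ} {N : NCell ι d} {b : Fin d → (S.V →₀ ℤ)} {a : ℕ}
    (hN : IsNormal emb S N b a) {ν : S.V →₀ ℤ}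
    (hν : ∀ (x : S.V → ℝ), (∀ v, x v ≠ 0) →
      ∀ i, S.ev x (emb i) = lm x ν * evN (fun j => lm x (b j)) (N.L i)) : 0 < ldeg S ν := by
  obtain ⟨i, hi⟩ := exists_mem hS
  have h1 := hν (fun _ => 1) (fun _ => one_ne_zero) i
  have h2 := hν (fun v => 2 ^ lw S v) (fun v => by positivity) i
  have hlm : ∀ m : S.V →₀ ℤ, lm (fun _ : S.V => (1 : ℝ)) m = 1 := by
    intro m
    simp [lm]
  have hb : ∀ j, lm (fun v : S.V => (2 : ℝ) ^ lw S v) (b j) = 1 := by
    intro j
    rw [lm_two, ldeg_Lam hS.wf (hN.mem j), zpow_zero]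
  simp only [hlm, one_mul] at h1
  simp only [hb] at h2
  rw [lm_two, ← h1] at h2
  have h3 : S.ev (fun v : S.V => (2 : ℝ) ^ lw S v) (emb i) =
      2 ^ ((emb i).card : ℤ) * S.ev (fun _ => 1) (emb i) := by
    rw [ev_eq, ev_eq]
    simp [lw]
  have h4 : 0 < S.ev (fun _ => (1 : ℝ)) (emb i) := by
    rw [ev_eq]
    refine mul_pos (by simp) ?_
    exact evN_pos (fun _ => one_pos) ((hS.wf.ne _).2 hi)
  rw [h3] at h2
  have h5 := mul_right_cancel₀ h4.ne' h2
  have h6 := zpow_right_injective₀ (two_pos : (0 : ℝ) < 2) (by norm_num) h5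
  have h7 := hS.pos _ hi
  omega

theorem indep {ι : Type} [Fintype ι] {emb : ι → Finset ℕ}
    {S : FlatCell} (hS : FOk emb S) {d : ℕ} {N : NCell ι d} {b : Fin d → (S.V →₀ ℤ)} {a : ℕ}
    (hN : IsNormal emb S N b a) {ν : S.V →₀ ℤ} (hν : 0 < ldeg S ν) :
    LinearIndependent ℤ (Fin.cons ν b : Fin (d + 1) → (S.V →₀ ℤ)) := by
  have key : ∀ y ∈ Submodule.span ℤ (Set.range b), ldeg S y = 0 := by
    intro y hy
    induction hy using Submodule.span_induction with
    | mem x hx =>
      obtain ⟨j, rfl⟩ := hx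
      exact ldeg_Lam hS.wf (hN.mem j)
    | zero => exact ldeg_zero S
    | add x y _ _ hx hy => rw [ldeg_add, hx, hy]; rfl
    | smul c x _ hx => rw [ldeg_smul, hx, mul_zero]
  refine LinearIndependent.finCons' ν b hN.ind fun c y hy h => ?_
  have h1 : ldeg S y = 0 := key y hy
  have h2 := congrArg (ldeg S) h
  rw [ldeg_add, ldeg_smul, h1, ldeg_zero, add_zero] at h2
  rcases mul_eq_zero.1 h2 with h3 | h3
  · exact h3
  · omega

theorem Z_eq (hL : KlauStmt) {ι : Type} [Fintype ι] {emb : ι → Finset ℕ}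
    {S : FlatCell} (hS : FOk emb S) {d : ℕ} {N : NCell ι d} {b : Fin d → (S.V →₀ ℤ)} {a : ℕ}
    (hN : IsNormal emb S N b a) : N.Z = {z | ∃ z' ∈ S.Z, z = fun i => z' (emb i)} := by
  obtain ⟨ν, hν⟩ := ev_formula_real hL hN
  have hdeg := nu_deg hS hN hν
  have hind := indep hS hN hdeg
  ext z
  constructor
  · rintro ⟨τ, t, hτ, ht, hz⟩
    obtain ⟨l, hl⟩ := exists_log _ hind (Fin.cons (Real.log τ) (fun j => Real.log (t j)))
    have h0 : lm (fun v => Real.exp (l v)) ν = τ := by
      have := hl 0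
      rw [Fin.cons_zero, Fin.cons_zero] at this
      rw [lm_exp, this, Real.exp_log hτ]
    have hj : ∀ j, lm (fun v => Real.exp (l v)) (b j) = t j := by
      intro j
      have := hl j.succ
      rw [Fin.cons_succ, Fin.cons_succ] at this
      rw [lm_exp, this, Real.exp_log (ht j)]
    refine ⟨S.ev (fun v => Real.exp (l v)), ⟨_, fun v => Real.exp_pos _, rfl⟩, ?_⟩
    funext i
    rw [hz i, hν _ (fun v => (Real.exp_pos _).ne') i, h0]
    simp only [hj]
  · rintro ⟨z', ⟨x, hx, rfl⟩, rfl⟩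
    refine ⟨lm x ν, fun j => lm x (b j), lm_pos hx ν, fun j => lm_pos hx (b j), fun i => ?_⟩
    exact hν x (fun v => (hx v).ne') i

theorem supp_closure {S : FlatCell} (hS : S.Wf) {z : Finset ℕ → ℝ} (hz : z ∈ closure S.Z)
    {I : Finset ℕ} (hI : I ∉ S.M) : z I = 0 := by
  have hc : IsClosed {z : Finset ℕ → ℝ | z I = 0} :=
    isClosed_eq (continuous_apply I) continuous_const
  refine closure_minimal ?_ hc hz
  rintro _ ⟨x, hx, rfl⟩
  have h0 : S.Δ I = 0 := by
    by_contra h
    exact hI ((hS.ne I).1 h)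
  show S.ev x I = 0
  rw [ev_eq, h0]
  simp

theorem kclo (hL : KlauStmt) : KcloStmt := by
  intro ι _ emb S hS d N b a hN
  have hZ := Z_eq hL hS hN
  refine ⟨hZ, ?_, fun z' hz' I hI => by
    by_contra h
    exact hI (supp_closure hS.wf hz' h)⟩
  classical
  apply Set.Subset.antisymm
  · intro z hz
    have hE : Continuous fun z : ι → ℝ => Function.extend emb z 0 := by
      refine continuous_pi fun I => ?_
      by_cases h : ∃ i, emb i = I
      · obtain ⟨i, rfl⟩ := h
        simp only [hS.inj.extend_apply]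
        exact continuous_apply i
      · simp only [Function.extend_apply' _ _ _ h]
        exact continuous_const
    have h1 : Function.extend emb z 0 ∈ closure ((fun z : ι → ℝ => Function.extend emb z 0) '' N.Z) :=
      image_closure_subset_closure_image hE ⟨z, hz, rfl⟩
    refine ⟨Function.extend emb z 0, closure_mono ?_ h1, ?_⟩
    · rintro _ ⟨w, hw, rfl⟩
      rw [hZ] at hw
      obtain ⟨w', hw', rfl⟩ := hw
      have : Function.extend emb (fun i => w' (emb i)) 0 = w' := by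
        funext I
        by_cases h : ∃ i, emb i = I
        · obtain ⟨i, rfl⟩ := h
          rw [hS.inj.extend_apply]
        · rw [Function.extend_apply' _ _ _ h]
          refine (supp_closure hS.wf (subset_closure hw') fun hM => h (hS.sub I hM)).symm
      show Function.extend emb (fun i => w' (emb i)) 0 ∈ S.Z
      rw [this]
      exact hw'
    · funext i
      rw [hS.inj.extend_apply]
  · rintro _ ⟨z', hz', rfl⟩
    have hR : Continuous fun z' : Finset ℕ → ℝ => fun i => z' (emb i) :=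
      continuous_pi fun i => continuous_apply (emb i)
    have h1 : (fun i => z' (emb i)) ∈ closure ((fun z' : Finset ℕ → ℝ => fun i => z' (emb i)) '' S.Z) :=
      image_closure_subset_closure_image hR ⟨z', hz', rfl⟩
    refine closure_mono ?_ h1
    rintro _ ⟨w, hw, rfl⟩
    rw [hZ]
    exact ⟨w, hw, rfl⟩

end PosGeom.H31
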