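import Pool.Agent.Helper93_ABCT.StmtK

/-!
# Module UTRA: transport along a diagonal change of coordinates
-/

set_option autoImplicit false

open MvPolynomial Topology

namespace PosGeom.H31

open ABCT

variable {ι : Type} [Fintype ι]

/-- the diagonal substitution -/
noncomputable def dg (ε : ι → ℂ) : MvPolynomial ι ℂ →ₐ[ℂ] MvPolynomial ι ℂ :=
  aeval fun i => C (ε i) * X i

theorem dg_X (ε : ι → ℂ) (i : ι) : dg ε (X i) = C (ε i) * X i := by
  rw [dg, aeval_X]

theorem dg_dg (ε δ : ι → ℂ) (h : ∀ i, ε i * δ i = 1) (F : MvPolynomial ι ℂ) :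
    dg ε (dg δ F) = F := by
  have : (dg ε).comp (dg δ) = AlgHom.id ℂ _ := by
    apply algHom_ext
    intro i
    rw [AlgHom.comp_apply, dg_X, map_mul, dg_X]
    have : (dg ε) (C (δ i)) = C (δ i) := (dg ε).commutes (δ i)
    rw [this, ← mul_assoc, ← C_mul, mul_comm (δ i), h i, C_1, one_mul]
    rfl
  exact AlgHom.congr_fun this F

theorem dg_hom (ε : ι → ℂ) {F : MvPolynomial ι ℂ} {n : ℕ} (hF : F.IsHomogeneous n) :
    (dg ε F).IsHomogeneous n := by
  have := hF.aeval (fun i => C (ε i) * X i) (n := 1) (fun i => by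
    simpa using (isHomogeneous_C ι (ε i)).mul (isHomogeneous_X ℂ i))
  rwa [one_mul] at this

theorem dg_comp (ε : ι → ℂ) (F : MvPolynomial ι ℂ) (n : ℕ) :
    homogeneousComponent n (dg ε F) = dg ε (homogeneousComponent n F) := by
  conv_lhs => rw [← sum_homogeneousComponent F]
  rw [map_sum, map_sum]
  have h1 : ∀ i, homogeneousComponent n (dg ε (homogeneousComponent i F)) =
      if i = n then dg ε (homogeneousComponent n F) else 0 := by
    intro i
    rw [homogeneousComponent_of_mem (dg_hom ε (homogeneousComponent_isHomogeneous i F))]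
    by_cases h : i = n
    · subst h
      simp
    · rw [if_neg h, if_neg (Ne.symm h)]
  simp only [h1]
  rw [Finset.sum_ite_eq']
  split_ifs with h
  · rfl
  · rw [homogeneousComponent_eq_zero, map_zero]
    rw [Finset.mem_range] at h
    omega

theorem aeval_dg {L : Type} [CommRing L] [Algebra ℂ L] (ε : ι → ℂ) (x : ι → L)
    (F : MvPolynomial ι ℂ) :
    aeval x (dg ε F) = aeval (fun i => algebraMap ℂ L (ε i) * x i) F := by
  have : (aeval x : MvPolynomial ι ℂ →ₐ[ℂ] L).comp (dg ε) =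
      aeval fun i => algebraMap ℂ L (ε i) * x i := by
    apply algHom_ext
    intro i
    rw [AlgHom.comp_apply, dg_X, map_mul, aeval_X, aeval_X, aeval_C]
  exact AlgHom.congr_fun this F

/-- the transport of a variety -/
noncomputable def dgVar (ε : ι → ℂ) (hε : ∀ i, ε i ≠ 0) (V : PVar ι) : PVar ι where
  I := V.I.comap (dg ε)
  prime := Ideal.comap_isPrime _ _
  homog := by
    intro F hF n
    rw [Ideal.mem_comap] at hF ⊢
    rw [← dg_comp]
    exact V.homog _ hF n
  rel := by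
    obtain ⟨i, hi⟩ := V.rel
    refine ⟨i, fun h => hi ?_⟩
    rw [Ideal.mem_comap, dg_X] at h
    have := V.I.mul_mem_left (C (ε i)⁻¹) h
    rwa [← mul_assoc, ← C_mul, inv_mul_cancel₀ (hε i), C_1, one_mul] at this

/-- the isomorphism of function fields -/
theorem exists_t (hG : SgenStmt) (V V' : PVar ι) (ε : ι → ℂ) (hε : ∀ i, ε i ≠ 0)
    (h : ∀ F, F ∈ V'.I ↔ aeval (fun i => C (ε i) * X i) F ∈ V.I) :
    ∃ t : V'.K ≃ₐ[ℂ] V.K,
      ∀ f a, V'.SpecTo (fun i => algebraMap ℂ V.Frac (ε i) * V.gen i) f a ↔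
        ((t f : V.K) : V.Frac) = a := by
  obtain ⟨hV, -, -⟩ := hG ι V
  obtain ⟨-, -, h3⟩ := hG ι V'
  obtain ⟨e, he, hr⟩ := h3 V.Frac (fun i => algebraMap ℂ V.Frac (ε i) * V.gen i) (by
    intro F n _
    rw [← aeval_dg, hV, h]
    rfl)
  have hK : e.fieldRange = V.K := by
    rw [hr]
    unfold PVar.K
    have hc : ∀ c : ℂ, c ≠ 0 → algebraMap ℂ V.Frac c ≠ 0 := fun c hc =>
      (map_ne_zero_iff _ (algebraMap ℂ V.Frac).injective).2 hc
    apply le_antisymm
    · rw [IntermediateField.adjoin_le_iff]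
      rintro _ ⟨i, j, rfl⟩
      have : algebraMap ℂ V.Frac (ε i) * V.gen i / (algebraMap ℂ V.Frac (ε j) * V.gen j) =
          algebraMap ℂ V.Frac (ε i / ε j) * (V.gen i / V.gen j) := by
        rw [map_div₀, div_mul_div_comm]
      rw [this]
      exact mul_mem (IntermediateField.algebraMap_mem _ _)
        (IntermediateField.subset_adjoin _ _ ⟨i, j, rfl⟩)
    · rw [IntermediateField.adjoin_le_iff]
      rintro _ ⟨i, j, rfl⟩
      have : V.gen i / V.gen j = algebraMap ℂ V.Frac (ε j / ε i) *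
          (algebraMap ℂ V.Frac (ε i) * V.gen i / (algebraMap ℂ V.Frac (ε j) * V.gen j)) := by
        rw [map_div₀, div_mul_div_comm, ← mul_assoc, ← mul_assoc, mul_comm (algebraMap ℂ V.Frac (ε i)),
          mul_div_mul_left _ _ (mul_ne_zero (hc _ (hε j)) (hc _ (hε i)))]
      rw [this]
      exact mul_mem (IntermediateField.algebraMap_mem _ _)
        (IntermediateField.subset_adjoin _ _ ⟨i, j, rfl⟩)
  let t0 : V'.K ≃ₐ[ℂ] e.fieldRange := AlgEquiv.ofInjectiveField e
  refine ⟨t0.trans (IntermediateField.equivOfEq hK), fun f a => ?_⟩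
  rw [he]
  rfl

theorem dvr_comap {K K' : Type} [Field K] [Field K'] (t : K ≃+* K') (O' : ValuationSubring K')
    [IsDiscreteValuationRing O'] : IsDiscreteValuationRing (O'.comap (t : K →+* K')) := by
  let e : O' ≃+* (O'.comap (t : K →+* K')) :=
    { toFun := fun x => ⟨t.symm x.1, by
        rw [ValuationSubring.mem_comap]
        simp⟩
      invFun := fun x => ⟨t x.1, by
        have := x.2
        rw [ValuationSubring.mem_comap] at this
        exact this⟩
      left_inv := fun x => by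
        apply Subtype.ext
        simp
      right_inv := fun x => by
        apply Subtype.ext
        simp
      map_mul' := fun x y => by
        apply Subtype.ext
        simp
      map_add' := fun x y => by
        apply Subtype.ext
        simp }
  exact IsDiscreteValuationRing.RingEquivClass.isDiscreteValuationRing e

theorem val_lt_one_iff {K : Type} [Field K] (O : ValuationSubring K) (f : K) :
    O.valuation f < 1 ↔ f = 0 ∨ f⁻¹ ∉ O := by
  by_cases hf : f = 0
  · subst hf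
    simp
  · rw [← O.valuation_le_one_iff, map_inv₀]
    simp only [hf, false_or, not_le]
    rw [one_lt_inv₀ (by rw [zero_lt_iff]; exact (Valuation.ne_zero_iff _).2 hf)]

theorem utra (hG : SgenStmt) (hSp : SpecStmt) : UtraStmt := by
  intro ι _ V V' ε hε h
  obtain ⟨t, ht⟩ := exists_t hG V V' ε hε h
  refine ⟨t, ht, fun C' hC' => ?_⟩
  have hδ : ∀ i, (ε i)⁻¹ ≠ 0 := fun i => inv_ne_zero (hε i)
  -- the two substitutions are inverse
  have e1 : ∀ F, dg ε (dg (fun i => (ε i)⁻¹) F) = F := dg_dg _ _ fun i => mul_inv_cancel₀ (hε i)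
  have e2 : ∀ F, dg (fun i => (ε i)⁻¹) (dg ε F) = F := dg_dg _ _ fun i => inv_mul_cancel₀ (hε i)
  have h' : ∀ F, F ∈ V'.I ↔ dg ε F ∈ V.I := h
  let C₁ : PVar ι := dgVar (fun i => (ε i)⁻¹) hδ C'
  have hC₁ : ∀ F, F ∈ C₁.I ↔ dg (fun i => (ε i)⁻¹) F ∈ C'.I := fun F => Iff.rfl
  have hVC : V.I ≤ C₁.I := by
    intro F hF
    rw [hC₁]
    apply hC'
    rw [h', e1]
    exact hF
  have hCC : ∀ F, F ∈ C'.I ↔ aeval (fun i => C (ε i) * X i) F ∈ C₁.I := by
    intro F
    rw [hC₁]
    have := e2 F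
    unfold dg at this ⊢
    rw [this]
  obtain ⟨tC, -⟩ := exists_t hG C₁ C' ε hε hCC
  refine ⟨C₁, hVC, tC.symm.trdeg_eq, fun O' _ hdom => ?_⟩
  refine ⟨O'.comap ((t.symm : V.K ≃+* V'.K) : V.K →+* V'.K),
    dvr_comap (t.symm : V.K ≃+* V'.K) O', ?_, fun f => ?_⟩
  · intro f a hf
    obtain ⟨n, F, G, hF, hGh, hG0, hfe, hae⟩ := hf
    obtain ⟨gV, -, -⟩ := hG ι V
    obtain ⟨gV', -, -⟩ := hG ι V'
    obtain ⟨gC, -, -⟩ := hG ι C₁
    obtain ⟨gC', -, -⟩ := hG ι C'
    have hGC : G ∉ C₁.I := fun h0 => hG0 ((gC G).2 h0)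
    have hGV : aeval V.gen G ≠ 0 := fun h0 => hGC (hVC ((gV G).1 h0))
    set F₁ := dg (fun i => (ε i)⁻¹) F with hF₁
    set G₁ := dg (fun i => (ε i)⁻¹) G with hG₁
    have hx : ∀ P : MvPolynomial ι ℂ, aeval (fun i => algebraMap ℂ V.Frac (ε i) * V.gen i)
        (dg (fun i => (ε i)⁻¹) P) = aeval V.gen P := by
      intro P
      rw [← aeval_dg, e1]
    -- the point `ε gen` of `V'`
    have hpt : ∀ P ∈ V'.I, aeval (fun i => algebraMap ℂ V.Frac (ε i) * V.gen i) P = 0 := by
      intro P hP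
      rw [← aeval_dg, gV]
      exact (h' P).1 hP
    have hne : ∃ i, algebraMap ℂ V.Frac (ε i) * V.gen i ≠ 0 := by
      obtain ⟨i, hi⟩ := V.rel
      refine ⟨i, mul_ne_zero ((map_ne_zero_iff _ (algebraMap ℂ V.Frac).injective).2 (hε i)) ?_⟩
      intro h0
      apply hi
      rw [← gV, aeval_X]
      exact h0
    obtain ⟨-, -, -, -, -, -, h7, -⟩ := hSp ι V' V.Frac _ hpt hne
    obtain ⟨g, hg1, hg2⟩ := h7 n F₁ G₁ (dg_hom _ hF) (dg_hom _ hGh) (by
      rw [hG₁, hx]
      exact hGV)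
    rw [ht, hF₁, hG₁, hx, hx] at hg2
    have htg : t g = f := by
      apply Subtype.ext
      rw [hg2, eq_comm, eq_div_iff hGV]
      exact hfe
    have hsg : t.symm f = g := by rw [← htg, AlgEquiv.symm_apply_apply]
    have hG₁0 : aeval C'.gen G₁ ≠ 0 := fun h0 => hGC ((hC₁ G).2 ((gC' _).1 h0))
    have hspec : V'.SpecTo C'.gen g (aeval C'.gen F₁ / aeval C'.gen G₁) :=
      ⟨n, F₁, G₁, dg_hom _ hF, dg_hom _ hGh, hG₁0, hg1, div_mul_cancel₀ _ hG₁0⟩
    obtain ⟨d1, d2⟩ := hdom g _ hspec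
    refine ⟨?_, fun ha => ?_⟩
    · rw [ValuationSubring.mem_comap]
      show t.symm f ∈ O'
      rw [hsg]
      exact d1
    · subst ha
      rw [zero_mul] at hae
      have hFC : F ∈ C₁.I := (gC F).1 hae.symm
      have hF₁0 : aeval C'.gen F₁ = 0 := (gC' _).2 ((hC₁ F).1 hFC)
      have d3 := d2 (by rw [hF₁0, zero_div])
      rw [val_lt_one_iff] at d3 ⊢
      rcases d3 with d3 | d3
      · left
        rw [← htg, d3, map_zero]
      · right
        intro hm
        apply d3
        rw [ValuationSubring.mem_comap] at hm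
        have hm' : t.symm f⁻¹ ∈ O' := hm
        rwa [map_inv₀, hsg] at hm'
  · rw [ValuationSubring.mem_comap]
    show t.symm (t f) ∈ O' ↔ f ∈ O'
    rw [AlgEquiv.symm_apply_apply]

end PosGeom.H31
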